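import Mathlib
import Pool.Agent.Q91.Signs

/-!
# Dimension of sign sets for the series with terms `(n^{-α₁}, n^{-α₂})`
-/

namespace Pool.Agent.Results.MP_035d7c_an.DimOne

open Filter Topology Q91.Signs

open scoped ENNReal

/-- The term with index `n + 1`, that is `((n+1)^{-α₁}, (n+1)^{-α₂})`. -/
noncomputable def a (α₁ α₂ : ℝ) (n : ℕ) : ℝ × ℝ := (((n : ℝ) + 1) ^ (-α₁), ((n : ℝ) + 1) ^ (-α₂))

/-- The set `E(L)` of sign sequences for which the series converges to `L`. -/
def EL (α₁ α₂ : ℝ) (L : ℝ × ℝ) : Set Om :=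
  {ε | Tendsto (fun N => ∑ n ∈ Finset.range N, sg ε n • a α₁ α₂ n) atTop (𝓝 L)}

/-- If the terms tend to zero, convergence of the partial sums along multiples of `K` is enough. -/
lemma tendsto_of_blocks {u : ℕ → ℝ × ℝ} (hu : Tendsto u atTop (𝓝 0)) {K : ℕ} (hK : 0 < K)
    {L : ℝ × ℝ}
    (h : Tendsto (fun N => ∑ n ∈ Finset.range (K * N), u n) atTop (𝓝 L)) :
    Tendsto (fun N => ∑ n ∈ Finset.range N, u n) atTop (𝓝 L) := by
  have hdiv : Tendsto (fun n : ℕ => n / K) atTop atTop := Nat.tendsto_div_const_atTop hK.ne'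
  have h1 : Tendsto (fun n : ℕ => ∑ i ∈ Finset.range (K * (n / K)), u i) atTop (𝓝 L) :=
    h.comp hdiv
  have h2 : Tendsto (fun n : ℕ => ∑ i ∈ Finset.range (n % K), u (K * (n / K) + i)) atTop (𝓝 0) := by
    have h3 : Tendsto (fun n : ℕ => ∑ i ∈ Finset.range K, ‖u (K * (n / K) + i)‖) atTop (𝓝 0) := by
      have : Tendsto (fun n : ℕ => ∑ i ∈ Finset.range K, ‖u (K * (n / K) + i)‖) atTop
          (𝓝 (∑ _i ∈ Finset.range K, (0 : ℝ))) := by
        apply tendsto_finsetSum
        intro i _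
        have h4 : Tendsto (fun n : ℕ => K * (n / K) + i) atTop atTop := by
          apply tendsto_atTop_mono (f := fun n : ℕ => n / K) _ hdiv
          intro n
          have : n / K ≤ K * (n / K) := Nat.le_mul_of_pos_left _ hK
          omega
        have h5 := (hu.comp h4).norm
        simpa using h5
      simpa using this
    apply squeeze_zero_norm _ h3
    intro n
    calc ‖∑ i ∈ Finset.range (n % K), u (K * (n / K) + i)‖
        ≤ ∑ i ∈ Finset.range (n % K), ‖u (K * (n / K) + i)‖ := norm_sum_le _ _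
      _ ≤ ∑ i ∈ Finset.range K, ‖u (K * (n / K) + i)‖ := by
          apply Finset.sum_le_sum_of_subset_of_nonneg
          · exact Finset.range_mono (Nat.mod_lt n hK).le
          · intro i _ _; exact norm_nonneg _
  have h6 := h1.add h2
  rw [add_zero] at h6
  refine h6.congr fun n => ?_
  rw [← Finset.sum_range_add, Nat.div_add_mod]

/-- Splitting a sum over `K * N` terms into blocks. -/
lemma sum_blocks (u : ℕ → ℝ × ℝ) (K N : ℕ) :
    ∑ n ∈ Finset.range (K * N), u n
      = ∑ m ∈ Finset.range N, ∑ i ∈ Finset.range K, u (K * m + i) := by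
  induction N with
  | zero => simp
  | succ N ih => rw [Finset.sum_range_succ, ← ih, Nat.mul_succ, Finset.sum_range_add]

/-- A balanced sum is small. -/
lemma balanced_bound {α : ℝ} (hα : 0 < α) {j : ℕ} (s : Finset (Fin (2 * j))) (hs : s.card = j)
    (x : ℝ) (hx : 0 < x) :
    |∑ i : Fin (2 * j), (if i ∈ s then (1 : ℝ) else -1) * (x + i) ^ (-α)|
      ≤ 2 * j * (x ^ (-α) - (x + (2 * j + 1)) ^ (-α)) := by
  have hzero : ∑ i : Fin (2 * j), (if i ∈ s then (1 : ℝ) else -1) = 0 := by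
    have h1 : ∀ i : Fin (2 * j), (if i ∈ s then (1 : ℝ) else -1)
        = 2 * (if i ∈ s then (1 : ℝ) else 0) - 1 := by
      intro i; split_ifs <;> norm_num
    rw [Finset.sum_congr rfl fun i _ => h1 i, Finset.sum_sub_distrib, ← Finset.mul_sum,
      Finset.sum_boole]
    simp [hs]
  have e : ∑ i : Fin (2 * j), (if i ∈ s then (1 : ℝ) else -1) * (x + i) ^ (-α)
      = ∑ i : Fin (2 * j), (if i ∈ s then (1 : ℝ) else -1) * ((x + i) ^ (-α) - x ^ (-α)) := by
    simp only [mul_sub, Finset.sum_sub_distrib]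
    rw [← Finset.sum_mul, hzero]
    ring
  rw [e]
  calc |∑ i : Fin (2 * j), (if i ∈ s then (1 : ℝ) else -1) * ((x + i) ^ (-α) - x ^ (-α))|
      ≤ ∑ i : Fin (2 * j), |(if i ∈ s then (1 : ℝ) else -1) * ((x + i) ^ (-α) - x ^ (-α))| :=
        Finset.abs_sum_le_sum_abs _ _
    _ ≤ ∑ _i : Fin (2 * j), (x ^ (-α) - (x + (2 * j + 1)) ^ (-α)) := by
        apply Finset.sum_le_sum
        intro i _
        have hsgn : |(if i ∈ s then (1 : ℝ) else -1)| = 1 := by split_ifs <;> norm_num
        rw [abs_mul, hsgn, one_mul]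
        have hi0 : (0 : ℝ) ≤ (i : ℕ) := Nat.cast_nonneg _
        have hi1 : (((i : ℕ) : ℝ)) ≤ 2 * j + 1 := by
          have : (i : ℕ) ≤ 2 * j + 1 := by omega
          exact_mod_cast this
        have h1 : (x + i) ^ (-α) ≤ x ^ (-α) :=
          Real.rpow_le_rpow_of_nonpos hx (by linarith) (by linarith)
        have h2 : (x + (2 * j + 1)) ^ (-α) ≤ (x + i) ^ (-α) :=
          Real.rpow_le_rpow_of_nonpos (by linarith) (by linarith) (by linarith)
        rw [abs_of_nonpos (by linarith)]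
        linarith
    _ = 2 * j * (x ^ (-α) - (x + (2 * j + 1)) ^ (-α)) := by
        rw [Finset.sum_const, Finset.card_univ, Fintype.card_fin, nsmul_eq_mul]
        push_cast
        ring

/-- Summability of the balanced block sums, one coordinate. -/
lemma balanced_summable {α : ℝ} (hα : 0 < α) {j : ℕ} (s : ℕ → Finset (Fin (2 * j)))
    (hs : ∀ m, (s m).card = j) :
    Summable (fun m : ℕ => ∑ i : Fin (2 * j), (if i ∈ s m then (1 : ℝ) else -1)
      * ((((2 * j + 1) * m + i : ℕ) : ℝ) + 1) ^ (-α)) := by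
  set h : ℕ → ℝ := fun m => ((((2 * j + 1) * m : ℕ) : ℝ) + 1) ^ (-α) with hh
  have hanti : ∀ m, h (m + 1) ≤ h m := by
    intro m
    apply Real.rpow_le_rpow_of_nonpos (by positivity) _ (by linarith)
    push_cast
    nlinarith [(Nat.cast_nonneg j : (0 : ℝ) ≤ j)]
  have hpos : ∀ m, 0 ≤ h m := fun m => by positivity
  have hsum : Summable (fun m => h m - h (m + 1)) := by
    apply summable_of_sum_range_le (c := h 0)
    · intro m; linarith [hanti m]
    · intro n
      rw [Finset.sum_range_sub']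
      linarith [hpos n]
  apply Summable.of_norm_bounded (hsum.mul_left (2 * j : ℝ))
  intro m
  have h1 := balanced_bound hα (s m) (hs m) ((((2 * j + 1) * m : ℕ) : ℝ) + 1) (by positivity)
  rw [Real.norm_eq_abs]
  have e1 : ∀ i : Fin (2 * j), ((((2 * j + 1) * m : ℕ) : ℝ) + 1 + (i : ℕ))
      = ((((2 * j + 1) * m + i : ℕ) : ℝ) + 1) := by
    intro i; push_cast; ring
  have e2 : ((((2 * j + 1) * m : ℕ) : ℝ) + 1 + (2 * j + 1)) = ((((2 * j + 1) * (m + 1) : ℕ) : ℝ) + 1) := by
    push_cast; ring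
  simp only [e1, e2] at h1
  exact h1

/-- The sign sequence built from a digit pattern and signs at the multiples. -/
def build {j : ℕ} (s : ℕ → Finset (Fin (2 * j))) (σ : Om) : Om := fun p =>
  if h : p % (2 * j + 1) < 2 * j then decide ((⟨p % (2 * j + 1), h⟩ : Fin (2 * j)) ∈ s (p / (2 * j + 1)))
  else σ (p / (2 * j + 1))

lemma build_free {j : ℕ} (s : ℕ → Finset (Fin (2 * j))) (σ : Om) (m : ℕ) (i : Fin (2 * j)) :
    build s σ ((2 * j + 1) * m + i) = decide (i ∈ s m) := by
  have hi := i.2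
  have h1 : ((2 * j + 1) * m + i) % (2 * j + 1) = i := by
    rw [Nat.mul_add_mod]; exact Nat.mod_eq_of_lt (by omega)
  have h2 : ((2 * j + 1) * m + i) / (2 * j + 1) = m := by
    rw [Nat.mul_add_div (by omega), Nat.div_eq_of_lt (by omega), add_zero]
  unfold build
  rw [dif_pos (by rw [h1]; exact hi)]
  simp only [h1, h2]

lemma build_last {j : ℕ} (s : ℕ → Finset (Fin (2 * j))) (σ : Om) (m : ℕ) :
    build s σ ((2 * j + 1) * m + 2 * j) = σ m := by
  have h1 : ((2 * j + 1) * m + 2 * j) % (2 * j + 1) = 2 * j := by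
    rw [Nat.mul_add_mod]; exact Nat.mod_eq_of_lt (by omega)
  have h2 : ((2 * j + 1) * m + 2 * j) / (2 * j + 1) = m := by
    rw [Nat.mul_add_div (by omega), Nat.div_eq_of_lt (by omega), add_zero]
  unfold build
  rw [dif_neg (by rw [h1]; omega), h2]

lemma tendsto_a {α₁ α₂ : ℝ} (h1 : 0 < α₁) (h2 : 0 < α₂) : Tendsto (a α₁ α₂) atTop (𝓝 0) := by
  have h : ∀ α : ℝ, 0 < α → Tendsto (fun n : ℕ => ((n : ℝ) + 1) ^ (-α)) atTop (𝓝 0) := by
    intro α hα
    have h3 : Tendsto (fun n : ℕ => ((n + 1 : ℕ) : ℝ)) atTop atTop :=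
      tendsto_natCast_atTop_atTop.comp (tendsto_add_atTop_nat 1)
    have h4 := (tendsto_rpow_neg_atTop hα).comp h3
    refine h4.congr fun n => ?_
    simp
  exact (h α₁ h1).prodMk_nhds (h α₂ h2)

lemma norm_sg (ε : Om) (n : ℕ) : |sg ε n| = 1 := by
  unfold sg; split_ifs <;> norm_num

/-- Every balanced pattern can be completed to an element of `E(L)`. -/
lemma exists_completion {α₁ α₂ : ℝ} (h1 : 0 < α₁) (h2 : 0 < α₂)
    (hS : ∀ L, (EL α₁ α₂ L).Nonempty) (L : ℝ × ℝ) {j : ℕ} (s : ℕ → Finset (Fin (2 * j)))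
    (hs : ∀ m, (s m).card = j) : ∃ σ : Om, build s σ ∈ EL α₁ α₂ L := by
  set K : ℕ := 2 * j + 1 with hK
  have hKr : (0 : ℝ) < K := by rw [hK]; positivity
  set b : ℕ → ℝ × ℝ := fun m => ∑ i : Fin (2 * j), (if i ∈ s m then (1 : ℝ) else -1)
      • a α₁ α₂ (K * m + i) with hb
  have hbs : Summable b := by
    have e : b = fun m => (∑ i : Fin (2 * j), (if i ∈ s m then (1 : ℝ) else -1)
        * ((((2 * j + 1) * m + i : ℕ) : ℝ) + 1) ^ (-α₁), ∑ i : Fin (2 * j),
        (if i ∈ s m then (1 : ℝ) else -1) * ((((2 * j + 1) * m + i : ℕ) : ℝ) + 1) ^ (-α₂)) := by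
      funext m
      rw [hb]
      simp only [a, hK]
      rw [Prod.ext_iff]
      constructor
      · simp only [Prod.fst_sum, Prod.smul_fst, smul_eq_mul]
      · simp only [Prod.snd_sum, Prod.smul_snd, smul_eq_mul]
    rw [e]
    exact ⟨_, (balanced_summable h1 s hs).hasSum.prodMk (balanced_summable h2 s hs).hasSum⟩
  -- the target for the signs at the multiples
  set L' : ℝ × ℝ := ∑' m, b m with hL'
  set T : ℝ × ℝ := ((K : ℝ) ^ α₁ * (L - L').1, (K : ℝ) ^ α₂ * (L - L').2) with hT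
  obtain ⟨σ, hσ⟩ := hS T
  refine ⟨σ, ?_⟩
  have hu : Tendsto (fun n => sg (build s σ) n • a α₁ α₂ n) atTop (𝓝 0) := by
    have h3 := (tendsto_a h1 h2).norm
    rw [norm_zero] at h3
    apply squeeze_zero_norm _ h3
    intro n
    rw [norm_smul, Real.norm_eq_abs, norm_sg, one_mul]
  apply tendsto_of_blocks hu (K := K) (by omega)
  -- the multiples
  have hmult : Tendsto (fun N => ∑ m ∈ Finset.range N, sg σ m • a α₁ α₂ (K * m + 2 * j)) atTop
      (𝓝 (L - L')) := by
    have hcoord : ∀ m : ℕ, a α₁ α₂ (K * m + 2 * j)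
        = ((K : ℝ) ^ (-α₁) * (a α₁ α₂ m).1, (K : ℝ) ^ (-α₂) * (a α₁ α₂ m).2) := by
      intro m
      have e : (((K * m + 2 * j : ℕ) : ℝ) + 1) = K * ((m : ℝ) + 1) := by
        rw [hK]; push_cast; ring
      unfold a
      rw [e, Real.mul_rpow hKr.le (by positivity), Real.mul_rpow hKr.le (by positivity)]
    have hcont : Continuous (fun p : ℝ × ℝ => ((K : ℝ) ^ (-α₁) * p.1, (K : ℝ) ^ (-α₂) * p.2)) := by
      fun_prop
    have h4 := (hcont.tendsto T).comp hσ
    have e2 : ((K : ℝ) ^ (-α₁) * T.1, (K : ℝ) ^ (-α₂) * T.2) = L - L' := by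
      rw [hT]
      have k1 : (K : ℝ) ^ (-α₁) * (K : ℝ) ^ α₁ = 1 := by
        rw [← Real.rpow_add hKr]; simp
      have k2 : (K : ℝ) ^ (-α₂) * (K : ℝ) ^ α₂ = 1 := by
        rw [← Real.rpow_add hKr]; simp
      rw [Prod.ext_iff]
      simp only
      constructor
      · rw [← mul_assoc, k1, one_mul]
      · rw [← mul_assoc, k2, one_mul]
    rw [e2] at h4
    refine h4.congr fun N => ?_
    simp only [Function.comp_apply, hcoord]
    rw [Prod.ext_iff]
    constructor
    · simp only [Prod.fst_sum, Prod.smul_fst, smul_eq_mul, Finset.mul_sum]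
      apply Finset.sum_congr rfl
      intro m _
      ring
    · simp only [Prod.snd_sum, Prod.smul_snd, smul_eq_mul, Finset.mul_sum]
      apply Finset.sum_congr rfl
      intro m _
      ring
  have hfree := hbs.hasSum.tendsto_sum_nat
  have h5 := hfree.add hmult
  have e3 : ∑' m, b m + (L - L') = L := by rw [← hL']; abel
  rw [e3] at h5
  refine h5.congr fun N => ?_
  rw [sum_blocks, ← Finset.sum_add_distrib]
  apply Finset.sum_congr rfl
  intro m _
  rw [hK, Finset.sum_range_succ, ← hK]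
  congr 1
  · rw [hb]
    simp only
    rw [Finset.sum_range]
    apply Finset.sum_congr rfl
    intro i _
    congr 1
    unfold sg
    rw [hK, build_free]
    simp
  · congr 1
    unfold sg
    rw [hK, build_last]

/-- The lower bound with block length `2 j + 1`. -/
lemma lower {α₁ α₂ : ℝ} (h1 : 0 < α₁) (h2 : 0 < α₂) (hS : ∀ L, (EL α₁ α₂ L).Nonempty)
    (L : ℝ × ℝ) {j : ℕ} (hj : 0 < j) :
    ENNReal.ofReal (Real.log (Nat.centralBinom j) / ((2 * j + 1 : ℕ) * Real.log 2))
      ≤ dimH (EL α₁ α₂ L) := by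
  classical
  have hcard : Fintype.card {s : Finset (Fin (2 * j)) // s.card = j} = Nat.centralBinom j := by
    rw [Fintype.card_finset_len, Fintype.card_fin, Nat.centralBinom_eq_two_mul_choose]
  have hM : 1 < Nat.centralBinom j := by
    have h3 := Nat.two_dvd_centralBinom_of_one_le hj
    have h4 := Nat.centralBinom_pos j
    exact lt_of_lt_of_le (by norm_num) (Nat.le_of_dvd h4 h3)
  set e : {s : Finset (Fin (2 * j)) // s.card = j} ≃ Fin (Nat.centralBinom j) :=
    Fintype.equivFinOfCardEq hcard with he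
  -- the pattern of a block
  set pat : ℕ → Om → Finset (Fin (2 * j)) := fun m x =>
    Finset.univ.filter (fun i : Fin (2 * j) => x ((2 * j + 1) * m + i) = true) with hpat
  set c : ℕ → Om → Fin (Nat.centralBinom j) := fun m x =>
    if h : (pat m x).card = j then e ⟨pat m x, h⟩ else ⟨0, by omega⟩ with hc
  apply le_dimH_of_code (K := 2 * j + 1) (by omega) hM c
  · intro m x y hxy
    have : pat m x = pat m y := by
      rw [hpat]
      simp only
      apply Finset.filter_congr
      intro i _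
      rw [hxy]
      have := i.2
      nlinarith
    rw [hc]
    simp only [this]
  · intro t
    obtain ⟨σ, hσ⟩ := exists_completion h1 h2 hS L (fun m => (e.symm (t m)).1)
      (fun m => (e.symm (t m)).2)
    refine ⟨_, hσ, fun m => ?_⟩
    have hp : pat m (build (fun m => (e.symm (t m)).1) σ) = (e.symm (t m)).1 := by
      rw [hpat]
      simp only
      ext i
      simp only [Finset.mem_filter, Finset.mem_univ, true_and]
      rw [build_free]
      simp
    rw [hc]
    simp only [hp]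
    rw [dif_pos (e.symm (t m)).2]
    simp

lemma tendsto_bound :
    Tendsto (fun j : ℕ => 1 - (1 / 1 * 1 / (2 * (j : ℝ) + 1)
      + Real.log (2 * j) ^ 1 / (1 * (2 * (j : ℝ)) + 1) / Real.log 2)) atTop (𝓝 1) := by
  have h0 : Tendsto (fun j : ℕ => 2 * (j : ℝ)) atTop atTop :=
    Tendsto.const_mul_atTop (by norm_num) tendsto_natCast_atTop_atTop
  have h1 : Tendsto (fun j : ℕ => 2 * (j : ℝ) + 1) atTop atTop :=
    tendsto_atTop_add_const_right _ _ h0
  have h2 : Tendsto (fun j : ℕ => (1 / 1 * 1 : ℝ) / (2 * (j : ℝ) + 1)) atTop (𝓝 0) :=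
    tendsto_const_nhds.div_atTop h1
  have h3 := (Real.tendsto_pow_log_div_mul_add_atTop 1 1 1 one_ne_zero).comp h0
  have h4 := h3.div_const (Real.log 2)
  rw [zero_div] at h4
  have h5 := (h2.add h4).const_sub 1
  rw [add_zero, sub_zero] at h5
  exact h5

lemma bound_le {j : ℕ} (hj : 0 < j) :
    1 - (1 / 1 * 1 / (2 * (j : ℝ) + 1) + Real.log (2 * j) ^ 1 / (1 * (2 * (j : ℝ)) + 1) / Real.log 2)
      ≤ Real.log (Nat.centralBinom j) / ((2 * j + 1 : ℕ) * Real.log 2) := by
  have hjr : (0 : ℝ) < j := by exact_mod_cast hj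
  have hl2 : 0 < Real.log 2 := Real.log_pos (by norm_num)
  have hc : (0 : ℝ) < Nat.centralBinom j := by exact_mod_cast Nat.centralBinom_pos j
  have h1 : (4 : ℝ) ^ j ≤ (2 * j) * Nat.centralBinom j := by
    exact_mod_cast Nat.four_pow_le_two_mul_self_mul_centralBinom j hj
  have h2 := Real.log_le_log (by positivity) h1
  rw [Real.log_mul (by positivity) hc.ne', Real.log_pow] at h2
  have h3 : Real.log 4 = 2 * Real.log 2 := by
    rw [show (4 : ℝ) = 2 ^ 2 by norm_num, Real.log_pow]; norm_num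
  rw [h3] at h2
  have e : 1 - (1 / 1 * 1 / (2 * (j : ℝ) + 1) + Real.log (2 * j) ^ 1 / (1 * (2 * (j : ℝ)) + 1) / Real.log 2)
      = (2 * j * Real.log 2 - Real.log (2 * j)) / ((2 * j + 1 : ℕ) * Real.log 2) := by
    push_cast
    field_simp
    ring
  rw [e]
  apply div_le_div_of_nonneg_right _ (by positivity)
  linarith

/-- **Main theorem.** Let `α₁ ≠ α₂` lie in `(0, 1]`. If every point of the plane is the sum of a
signed series `∑ ± (n^{-α₁}, n^{-α₂})`, then each set `E(L)` has Hausdorff dimension `1`. -/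
theorem result (α₁ α₂ : ℝ) (h1 : 0 < α₁) (_h1' : α₁ ≤ 1) (h2 : 0 < α₂) (_h2' : α₂ ≤ 1)
    (_hne : α₁ ≠ α₂) (hS : ∀ L : ℝ × ℝ, (EL α₁ α₂ L).Nonempty) (L : ℝ × ℝ) :
    dimH (EL α₁ α₂ L) = 1 := by
  apply le_antisymm (dimH_le_one _)
  have h3 := ENNReal.tendsto_ofReal tendsto_bound
  rw [ENNReal.ofReal_one] at h3
  apply le_of_tendsto h3
  filter_upwards [eventually_gt_atTop 0] with j hj
  exact (ENNReal.ofReal_le_ofReal (bound_le hj)).trans (lower h1 h2 hS L hj)

end Pool.Agent.Results.MP_035d7c_an.DimOne
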